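import Pool.Agent.Y998.ST.Torus
import Pool.Agent.TH268.PD.Unif

/-!
# Project PD: nearest neighbour stirring, local uniformity and the Poisson-Dirichlet law

Statements of the parts.  `stirLaw`, `stirExp`, `hop`, `nnRate` are those of
`Pool.Agent.Y998.ST.Defs`; `top`, `frac`, `Cyc`, `cyOf`, `um`, `pdm` those of
`Pool.Agent.TH268.PD` (`Top`, `Unif`).
-/

set_option autoImplicit false

namespace Pool.Agent.Y661.PD

open Finset Equiv
open Pool.Agent.Y998.ST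
open Pool.Agent.TH268.PD (top frac Cyc cyOf um pdm)

section defs

variable {V : Type} [Fintype V] [DecidableEq V]

/-- entropy of the law at time `t` -/
noncomputable def ent (J : V → V → ℝ) (t : ℝ) : ℝ := ∑ g : Perm V, Real.negMulLog (stirLaw J t g)

/-- `ℓ¹` distance of the law of the permutation and its translate by `u` -/
noncomputable def dl (J : V → V → ℝ) (t : ℝ) (u : Perm V) : ℝ :=
  ∑ g : Perm V, |stirLaw J t (u * g) - stirLaw J t g|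

/-- Hellinger distance (squared, with a regularisation `e`) -/
noncomputable def hel (J : V → V → ℝ) (e t : ℝ) (u : Perm V) : ℝ :=
  ∑ g : Perm V, (Real.sqrt (stirLaw J t (u * g) + e) - Real.sqrt (stirLaw J t g + e)) ^ 2

/-- entropy, regularised -/
noncomputable def entr (J : V → V → ℝ) (e t : ℝ) : ℝ :=
  ∑ g : Perm V, Real.negMulLog (stirLaw J t g + e)

/-- entropy production, regularised -/
noncomputable def prd (J : V → V → ℝ) (e t : ℝ) : ℝ :=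
  ∑ x, ∑ y, J x y / 2 * ((1 / 2) * ∑ g : Perm V,
    (stirLaw J t (swap x y * g) - stirLaw J t g) *
      (Real.log (stirLaw J t (swap x y * g) + e) - Real.log (stirLaw J t g + e)))

/-- function of the relative numbers of sample points in the cycles -/
noncomputable def smp {k m : ℕ} (f : (Fin m → ℝ) → ℝ) (g : Perm V) (b : Fin k → V) : ℝ :=
  f (fun i => top (fun γ : Cyc g => (Nat.card {l : Fin k // cyOf g (b l) = γ} : ℝ) / k) i)

/-- number of visits to `Q` of the first `K` points after `z` on its cycle -/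
def vis (Q : Finset V) (K : ℕ) (g : Perm V) (z : V) : ℕ :=
  (Finset.univ.filter fun i : Fin K => (g ^ ((i : ℕ) + 1)) z ∈ Q).card

end defs

/-- `ℓ¹` distance on the torus -/
def tdist {d L : ℕ} (x y : Fin d → ZMod L) : ℕ := ∑ i, ((x i - y i).valMinAbs).natAbs

/-- CONV: the semigroup property. -/
def S_CONV : Prop := ∀ (V : Type) [Fintype V] [DecidableEq V] (J : V → V → ℝ) (s t : ℝ)
  (g : Perm V), stirLaw J (s + t) g = ∑ h : Perm V, stirLaw J s (g * h⁻¹) * stirLaw J t h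

/-- HM: the Hellinger distance decreases in time. -/
def S_HM : Prop := ∀ (V : Type) [Fintype V] [DecidableEq V] (J : V → V → ℝ), (∀ x y, 0 ≤ J x y) →
  ∀ (e s t : ℝ), 0 ≤ e → 0 ≤ s → s ≤ t → ∀ u : Perm V, hel J e t u ≤ hel J e s u

/-- PRD: the derivative of the entropy. -/
def S_PRD : Prop := ∀ (V : Type) [Fintype V] [DecidableEq V] (J : V → V → ℝ),
  (∀ x y, 0 ≤ J x y) → ∀ (e t : ℝ), 0 < e → 0 ≤ t →
    HasDerivAt (fun s => entr J e s) (prd J e t) t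

/-- ENT: entropy production. -/
def S_ENT : Prop := ∀ (V : Type) [Fintype V] [DecidableEq V] (J : V → V → ℝ),
  (∀ x y, 0 ≤ J x y) → ∀ t : ℝ, 0 ≤ t →
    2 * t * ∑ x, ∑ y, J x y / 2 * hel J 0 t (swap x y) ≤ ent J t

/-- DISP: displacement. -/
def S_DISP : Prop := ∀ (d L : ℕ) [NeZero L], 3 ≤ L → ∀ t : ℝ, 0 ≤ t → ∀ x : Fin d → ZMod L,
  stirExp (nnRate d L) t (fun g => (tdist (g x) x : ℝ)) ≤ 2 * d * t

/-- SUB: bound of the entropy. -/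
def S_SUB : Prop := ∀ (d L : ℕ) [NeZero L], 3 ≤ L → ∀ t : ℝ, 0 ≤ t →
  ent (nnRate d L) t ≤ (L : ℝ) ^ d * (d * (2 + Real.log (3 + 2 * t)))

/-- TRI: automorphisms. -/
def S_TRI : Prop := ∀ (V : Type) [Fintype V] [DecidableEq V] (J : V → V → ℝ) (φ : Perm V),
  (∀ x y, J (φ x) (φ y) = J x y) → ∀ (t : ℝ) (g : Perm V),
    stirLaw J t (φ * g * φ⁻¹) = stirLaw J t g

/-- the bound for one edge -/
noncomputable def th (d : ℕ) (t : ℝ) : ℝ :=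
  Real.sqrt (2 * (d * (2 + Real.log (3 + 2 * t))) / t)

/-- EDGE: one edge. -/
def S_EDGE : Prop := ∀ (d L : ℕ) [NeZero L], 3 ≤ L → ∀ t : ℝ, 0 < t →
  ∀ x y : Fin d → ZMod L, nnRate d L x y ≠ 0 → dl (nnRate d L) t (swap x y) ≤ th d t

/-- WORD: any two points. -/
def S_WORD : Prop := ∀ (d L : ℕ) [NeZero L], 3 ≤ L → ∀ (t θ : ℝ), 0 ≤ θ →
  (∀ x y : Fin d → ZMod L, nnRate d L x y ≠ 0 → dl (nnRate d L) t (swap x y) ≤ θ) →
    ∀ x y : Fin d → ZMod L, dl (nnRate d L) t (swap x y) ≤ 2 * tdist x y * θ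

/-- LOC: the induced permutation of `k` points. -/
def S_LOC : Prop := ∀ (V : Type) [Fintype V] [DecidableEq V] (J : V → V → ℝ),
  (∀ x y, 0 ≤ J x y) → ∀ t : ℝ, 0 ≤ t → ∀ (k : ℕ) (b : Fin k → V) (η : ℝ), 0 ≤ η →
    (∀ i j, dl J t (swap (b i) (b j)) ≤ η) → ∀ (G : Perm (Fin k) → ℝ) (C : ℝ), (∀ π, |G π| ≤ C) →
    ∀ r : Perm V → Perm (Fin k), (∀ g i j, r (swap (b i) (b j) * g) = swap i j * r g) →
      |stirExp J t (fun g => G (r g)) - (∑ π, G π) / (k.factorial : ℝ)| ≤ k * (C * η)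

/-- SMP: sampling. -/
def S_SMP : Prop := ∀ (V : Type) [Fintype V] [DecidableEq V] [Nonempty V] (g : Perm V) (k m : ℕ)
  (f : (Fin m → ℝ) → ℝ) (Λ : ℝ), 0 < k → 0 ≤ Λ →
    (∀ (u v : Fin m → ℝ) (e : ℝ), 0 ≤ e → (∀ i, |u i - v i| ≤ e) → |f u - f v| ≤ Λ * e) →
    |(∑ b : Fin k → V, smp f g b) / (Fintype.card V : ℝ) ^ k - f (fun i => top (frac g) i)| ≤
      Λ / Real.sqrt k

/-- CNV: a function of the cycles of `k` points, averaged over all points and over the points of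
`Q`. -/
def S_CNV : Prop := ∀ (V : Type) [Fintype V] [DecidableEq V] [Nonempty V] (g : Perm V) (k K : ℕ)
  (Q : Finset V) (Φ : (Fin k → V) → ℝ) (C : ℝ), 0 < K → Q.Nonempty → (∀ b, |Φ b| ≤ C) →
    (∀ b b' : Fin k → V, (∀ i, g.SameCycle (b i) (b' i)) → Φ b = Φ b') →
    |(∑ b : Fin k → V, Φ b) / (Fintype.card V : ℝ) ^ k -
      (∑ b ∈ Fintype.piFinset (fun _ : Fin k => Q), Φ b) / (Q.card : ℝ) ^ k| ≤
      C * k * (2 / (Fintype.card V : ℝ) *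
        ∑ z, max 0 (1 - (Fintype.card V : ℝ) / (K * Q.card) * vis Q K g z))

/-- VARG: the visits of a stationary reversible chain. -/
def S_VARG : Prop := ∀ (V : Type) [Fintype V] [DecidableEq V] [Nonempty V] (q : Matrix V V ℝ)
  (K : ℕ) (Q : Finset V) (B : ℕ → ℝ), 0 < K → Q.Nonempty → (∀ x y, 0 ≤ q x y) →
    (∀ x y, q x y = q y x) → (∀ x, ∑ y, q x y = 1) →
    (∀ l, 0 < l → l < K → ∀ x y, (q ^ l) x y ≤ B l) →
    (∑ z, ∑ y : Fin K → V, (∏ i : Fin K, q ((Fin.cons z y : Fin (K + 1) → V) i.castSucc) (y i)) *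
      (1 - (Fintype.card V : ℝ) / (K * Q.card) *
        (Finset.univ.filter fun i : Fin K => y i ∈ Q).card) ^ 2) / (Fintype.card V : ℝ) ≤
      (Fintype.card V : ℝ) / (K * Q.card) +
        2 * (Fintype.card V : ℝ) / (K : ℝ) ^ 2 * ∑ l ∈ Finset.Ioo 0 K, ((K : ℝ) - l) * B l - 1

/-- VAR: the visits of the random walk on the torus. -/
def S_VAR : Prop := ∀ d : ℕ, 3 ≤ d → ∃ C : ℝ, 0 < C ∧ ∀ (L : ℕ) [NeZero L], 3 ≤ L →
  ∀ (t : ℝ), 1 ≤ t → ∀ (K : ℕ) (Q : Finset (Fin d → ZMod L)), 0 < K → Q.Nonempty →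
    (∑ z, ∑ y : Fin K → Fin d → ZMod L,
      (∏ i : Fin K, hop (nnRate d L) t
        ((Fin.cons z y : Fin (K + 1) → Fin d → ZMod L) i.castSucc) (y i)) *
      (1 - (L : ℝ) ^ d / (K * Q.card) *
        (Finset.univ.filter fun i : Fin K => y i ∈ Q).card) ^ 2) / (L : ℝ) ^ d ≤
      (L : ℝ) ^ d / (K * Q.card) +
        C * (L / Real.sqrt (t * K) + (L : ℝ) ^ d * t ^ (-((d : ℝ) / 2)) / K)

/-- the error of the comparison of the torus and a box with `R` points -/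
noncomputable def er (d L K : ℕ) (t R : ℝ) : ℝ :=
  Real.sqrt ((L : ℝ) ^ d / (K * R)) + Real.sqrt (L / Real.sqrt (t * K)) +
    Real.sqrt ((L : ℝ) ^ d * t ^ (-((d : ℝ) / 2)) / K) +
    (K * t ^ (1 - (d : ℝ) / 2) + (K : ℝ) ^ 2 * t / (L : ℝ) ^ d)

/-- VIS: the visits to `Q` of the cycles. -/
def S_VIS : Prop := ∀ d : ℕ, 3 ≤ d → ∃ C : ℝ, 0 < C ∧ ∀ (L : ℕ) [NeZero L], 3 ≤ L →
  ∀ (t : ℝ), 1 ≤ t → ∀ (K : ℕ) (Q : Finset (Fin d → ZMod L)), 0 < K → Q.Nonempty →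
    stirExp (nnRate d L) t (fun g => 2 / (L : ℝ) ^ d *
      ∑ z, max 0 (1 - (L : ℝ) ^ d / (K * Q.card) * vis Q K g z)) ≤ C * er d L K t Q.card

/-- LOQ: the cycles of `k` random points of `Q`. -/
def S_LOQ : Prop := ∀ (V : Type) [Fintype V] [DecidableEq V] (J : V → V → ℝ),
  (∀ x y, 0 ≤ J x y) → ∀ t : ℝ, 0 ≤ t → ∀ (Q : Finset V) (η : ℝ), 0 ≤ η → Q.Nonempty →
    (∀ x ∈ Q, ∀ y ∈ Q, dl J t (swap x y) ≤ η) → ∀ (k m : ℕ) (f : (Fin m → ℝ) → ℝ) (C : ℝ),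
    0 < k → (∀ u, |f u| ≤ C) →
      |stirExp J t (fun g => (∑ b ∈ Fintype.piFinset (fun _ : Fin k => Q), smp f g b) /
        (Q.card : ℝ) ^ k) - um k f| ≤ k * (C * η) + 2 * C * (k : ℝ) ^ 2 / Q.card

/-- BOX: a box. -/
def S_BOX : Prop := ∀ (d L : ℕ) [NeZero L] (ρ : ℕ), 1 ≤ ρ → ρ ≤ L →
  ∃ Q : Finset (Fin d → ZMod L), Q.card = ρ ^ d ∧ ∀ x ∈ Q, ∀ y ∈ Q, tdist x y ≤ d * ρ

/-- PARA: the choice of the parameters, first regime. -/
def S_PARA : Prop := ∀ d : ℕ, 3 ≤ d → ∀ (ε η : ℝ), 0 < ε → 0 < η →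
  ∃ L₀ : ℕ, ∀ L : ℕ, L₀ ≤ L → ∀ t : ℝ, (L : ℝ) ^ ((d : ℝ) / (d - 1) + ε) ≤ t →
    t ≤ (L : ℝ) ^ ((5 : ℝ) / 2) → ∃ K ρ : ℕ, 0 < K ∧ 1 ≤ ρ ∧ ρ ≤ L ∧
      er d L K t ((ρ : ℝ) ^ d) ≤ η ∧ ρ * th d t ≤ η ∧ 1 / (ρ : ℝ) ^ d ≤ η

/-- PARB: the choice of the parameters, second regime. -/
def S_PARB : Prop := ∀ d : ℕ, 3 ≤ d → ∀ η : ℝ, 0 < η →
  ∃ L₀ : ℕ, ∀ L : ℕ, L₀ ≤ L → ∀ t : ℝ, (L : ℝ) ^ ((5 : ℝ) / 2) ≤ t →
    L * th d t ≤ η ∧ 1 / (L : ℝ) ^ d ≤ η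

end Pool.Agent.Y661.PD
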